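import Pool.Agent.ABCP.Stmts

/-!
# Squad ABCP, row INJ (helper43)
-/

set_option autoImplicit false

namespace Pool.Agent.ABCP.H43

open Matrix
open Pool.Agent.ABC3 (HasDeg HomV)

section

variable {p : ℕ} {K Q B : Type} [Field K] [AddCommGroup Q] [Module K Q] [Fintype B]
  [DecidableEq B] (S : Sys p K Q B)

theorem homV_act (q : Q) {d : ℤ} {v : B → K} (hv : HomV S.deg d v) :
    HomV S.deg (d + 1) ((S.act q).mulVec v) := by
  intro s hs
  have hs' : ∑ j, S.act q s j * v j ≠ 0 := hs
  obtain ⟨j, _, hj⟩ := Finset.exists_ne_zero_of_sum_ne_zero hs'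
  have h1 := S.hdeg q s j (left_ne_zero_of_mul hj)
  have h2 := hv j (right_ne_zero_of_mul hj)
  omega

theorem act_mem {e : Matrix B B K} (he0 : End0 S e) (q : Q) {d : ℤ} {v : B → K}
    (hv : v ∈ Cd S e d) : (S.act q).mulVec v ∈ Cd S e (d + 1) := by
  refine ⟨homV_act S q hv.1, ?_⟩
  rw [Matrix.mulVec_mulVec, ← he0.2 q Submodule.mem_top, ← Matrix.mulVec_mulVec, hv.2]

theorem act_pow_mem {e : Matrix B B K} (he0 : End0 S e) (q : Q) (m : ℕ) {d : ℤ} {v : B → K}
    (hv : v ∈ Cd S e d) : (S.act q ^ m).mulVec v ∈ Cd S e (d + m) := by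
  induction m with
  | zero =>
    rw [pow_zero, Matrix.one_mulVec, Nat.cast_zero, add_zero]
    exact hv
  | succ m ih =>
    rw [pow_succ', ← Matrix.mulVec_mulVec]
    have h := act_mem S he0 q ih
    have e1 : d + (m : ℤ) + 1 = d + ((m + 1 : ℕ) : ℤ) := by push_cast; ring
    rw [e1] at h
    exact h

theorem act_comm_pow (q x : Q) (m : ℕ) : S.act q ^ m * S.act x = S.act x * S.act q ^ m :=
  (show Commute (S.act q) (S.act x) from S.comm q x).pow_left m

theorem pow_PC {e : Matrix B B K} (he0 : End0 S e) (P : Submodule K Q) (q : Q) (m : ℕ) {d : ℤ}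
    {v : B → K} (hv : v ∈ PC S e P d) : (S.act q ^ m).mulVec v ∈ PC S e P (d + m) := by
  unfold PC at hv
  induction hv using Submodule.span_induction with
  | mem v h =>
    obtain ⟨x, hx, w, hw, rfl⟩ := h
    refine Submodule.subset_span ⟨x, hx, (S.act q ^ m).mulVec w, ?_, ?_⟩
    · have h := act_pow_mem S he0 q m hw
      have e1 : d - 1 + (m : ℤ) = d + (m : ℤ) - 1 := by ring
      rw [e1] at h
      exact h
    · rw [Matrix.mulVec_mulVec, Matrix.mulVec_mulVec, act_comm_pow]
  | zero =>
    rw [Matrix.mulVec_zero]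
    exact Submodule.zero_mem _
  | add v w _ _ ihv ihw =>
    rw [Matrix.mulVec_add]
    exact Submodule.add_mem _ ihv ihw
  | smul c v _ ihv =>
    rw [Matrix.mulVec_smul]
    exact Submodule.smul_mem _ _ ihv

theorem act_PC {e : Matrix B B K} (he0 : End0 S e) (P : Submodule K Q) (q : Q) {d : ℤ}
    {v : B → K} (hv : v ∈ PC S e P d) : (S.act q).mulVec v ∈ PC S e P (d + 1) := by
  have h := pow_PC S he0 P q 1 hv
  rwa [pow_one, Nat.cast_one] at h

/-- the elements of `(P + K h) · im e` -/
theorem split_PC (e : Matrix B B K) (P : Submodule K Q) (h : Q) {d : ℤ} {v : B → K}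
    (hv : v ∈ PC S e (P ⊔ Submodule.span K {h}) d) :
    ∃ v' ∈ Cd S e (d - 1), ∃ y ∈ PC S e P d, v = (S.act h).mulVec v' + y := by
  unfold PC at hv
  induction hv using Submodule.span_induction with
  | mem v hm =>
    obtain ⟨x, hx, w, hw, rfl⟩ := hm
    obtain ⟨x', hx', z, hz, rfl⟩ := Submodule.mem_sup.1 hx
    obtain ⟨c, rfl⟩ := Submodule.mem_span_singleton.1 hz
    refine ⟨c • w, Submodule.smul_mem _ _ hw, (S.act x').mulVec w,
      Submodule.subset_span ⟨x', hx', w, hw, rfl⟩, ?_⟩
    rw [map_add, map_smul, Matrix.add_mulVec, Matrix.smul_mulVec, Matrix.mulVec_smul, add_comm]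
  | zero =>
    exact ⟨0, Submodule.zero_mem _, 0, Submodule.zero_mem _, by rw [Matrix.mulVec_zero, add_zero]⟩
  | add v w _ _ ihv ihw =>
    obtain ⟨v1, h1, y1, k1, rfl⟩ := ihv
    obtain ⟨v2, h2, y2, k2, rfl⟩ := ihw
    refine ⟨v1 + v2, Submodule.add_mem _ h1 h2, y1 + y2, Submodule.add_mem _ k1 k2, ?_⟩
    rw [Matrix.mulVec_add]
    abel
  | smul c v _ ihv =>
    obtain ⟨v1, h1, y1, k1, rfl⟩ := ihv
    refine ⟨c • v1, Submodule.smul_mem _ _ h1, c • y1, Submodule.smul_mem _ _ k1, ?_⟩
    rw [Matrix.mulVec_smul, smul_add]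

/-- products of `(p-1) dim P` elements of `P` kill `P · im e` -/
theorem kill_PC (nil : NILStmt) [Fact p.Prime] [FiniteDimensional K Q] (e : Matrix B B K)
    (P : Submodule K Q) {d : ℤ} {v : B → K} (hv : v ∈ PC S e P d) : AnnP S P v := by
  intro l hl hlen
  unfold PC at hv
  induction hv using Submodule.span_induction with
  | mem v hm =>
    obtain ⟨x, hx, w, hw, rfl⟩ := hm
    have h := nil p K Q B S P (l ++ [x]) (by
      intro y hy
      rcases List.mem_append.1 hy with h | h
      · exact hl y h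
      · rw [List.mem_singleton.1 h]
        exact hx) (by rw [List.length_append, hlen, List.length_singleton])
    rw [List.map_append, List.prod_append, List.map_singleton, List.prod_singleton] at h
    rw [Matrix.mulVec_mulVec, h, Matrix.zero_mulVec]
  | zero => rw [Matrix.mulVec_zero]
  | add v w _ _ ihv ihw => rw [Matrix.mulVec_add, ihv, ihw, add_zero]
  | smul c v _ ihv => rw [Matrix.mulVec_smul, ihv, smul_zero]

theorem prod_comm_pow (q : Q) (m : ℕ) (l : List Q) :
    (l.map (fun x => S.act x)).prod * S.act q ^ m = S.act q ^ m * (l.map (fun x => S.act x)).prod := by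
  induction l with
  | nil => simp
  | cons a l ih =>
    rw [List.map_cons, List.prod_cons, mul_assoc, ih, ← mul_assoc, ← act_comm_pow, mul_assoc]

end

/-- Row INJ. -/
theorem inj (bze : BZEStmt) (ext : EXTStmt) (nil : NILStmt) : INJStmt := by
  intro p hp K Q B _ _ _ _ _ _ _ S ι _ ev e a he he0 hlow hstar P h hh hH
  have key : ∀ (n : ℕ) (m : ℕ) (j : ℤ) (v : B → K), j < a + n → 1 ≤ m → j - a + m ≤ p - 1 →
      v ∈ Cd S e j → (S.act h ^ m).mulVec v ∈ PC S e P (j + m) → v ∈ PC S e P j := by
    intro n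
    induction n with
    | zero =>
      intro m j v hj _ _ hv _
      have h0 : v = 0 := hlow j (by simpa using hj) v hv.1 hv.2
      rw [h0]
      exact Submodule.zero_mem _
    | succ n ih =>
      intro m j v hj hm hjm hv hmv
      by_cases hja : j < a
      · have h0 : v = 0 := hlow j hja v hv.1 hv.2
        rw [h0]
        exact Submodule.zero_mem _
      · have hmp : m ≤ p - 1 := by
          have := hp.out.two_le
          omega
        have hann : AnnP S P ((S.act h ^ (p - 1)).mulVec v) := by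
          intro l hl hlen
          have h1 := kill_PC S nil e P hmv l hl hlen
          have h2 : S.act h ^ (p - 1) = S.act h ^ (p - 1 - m) * S.act h ^ m := by
            rw [← pow_add]
            congr 1
            omega
          rw [h2, ← Matrix.mulVec_mulVec, Matrix.mulVec_mulVec _ _ (S.act h ^ (p - 1 - m)),
            prod_comm_pow, ← Matrix.mulVec_mulVec, h1, Matrix.mulVec_zero]
        have hann2 := ext p K Q B S P h v hh hann
        have hvH := bze p K Q B S ι ev e j he he0
          (fun P' h1 h2 => hstar j (by omega) P' h1 h2) _ hH v hv.1 hv.2 hann2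
        obtain ⟨v', hv', y, hy, hvy⟩ := split_PC S e P h hvH
        have h3 : (S.act h ^ (m + 1)).mulVec v' ∈ PC S e P (j - 1 + ((m + 1 : ℕ) : ℤ)) := by
          have e1 : j - 1 + ((m + 1 : ℕ) : ℤ) = j + m := by push_cast; ring
          rw [e1]
          have e2 : (S.act h ^ (m + 1)).mulVec v' =
              (S.act h ^ m).mulVec v - (S.act h ^ m).mulVec y := by
            rw [hvy, Matrix.mulVec_add, add_sub_cancel_right, pow_succ, ← Matrix.mulVec_mulVec]
          rw [e2]
          exact Submodule.sub_mem _ hmv (pow_PC S he0 P h m hy)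
        have h4 := ih (m + 1) (j - 1) v' (by push_cast at hj; omega) (by omega)
          (by push_cast; omega) hv' h3
        have h5 := act_PC S he0 P h h4
        rw [sub_add_cancel] at h5
        rw [hvy]
        exact Submodule.add_mem _ h5 hy
  intro m j v hm hjm hv hmv
  exact key (j - a + 1).toNat m j v (by omega) hm hjm hv hmv

end Pool.Agent.ABCP.H43
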