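import Pool.Agent.ABCP.Stmts

/-!
# Squad ABCP, row PEN (helper43)
-/

set_option autoImplicit false

namespace Pool.Agent.ABCP.H43

theorem exists_theta {K W B : Type} [Field K] [AddCommGroup W] [Module K W] [AddCommGroup B]
    [Module K B] (f g : W →ₗ[K] B) (hg : Function.Injective g) (h : ∀ v, ∃ u, f v = g u) :
    ∃ θ : W →ₗ[K] W, ∀ v, f v = g (θ v) := by
  refine ⟨((LinearEquiv.ofInjective g hg).symm : LinearMap.range g →ₗ[K] W).comp
    (f.codRestrict (LinearMap.range g) (fun v => ?_)), fun v => ?_⟩
  · obtain ⟨u, hu⟩ := h v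
    exact ⟨u, hu.symm⟩
  · rw [LinearMap.comp_apply]
    exact (LinearEquiv.ofInjective_symm_apply g (h := hg) (f.codRestrict (LinearMap.range g) _ v)).symm

/-- Row PEN. -/
theorem pen : PENStmt := by
  intro K A B _ _ _ _ _ _ _ x y z hinj hz
  by_contra hz0
  have hw : ∀ l : K, ∃ w, x w + l • y w = z := by
    intro l
    obtain ⟨w, hw⟩ := hz 1 l (by simp)
    exact ⟨w, by simpa using hw⟩
  choose w hw using hw
  obtain ⟨W, hW⟩ : ∃ W : Submodule K A, W = Submodule.span K (Set.range w) := ⟨_, rfl⟩
  have hwW : ∀ l, w l ∈ W := fun l => by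
    rw [hW]
    exact Submodule.subset_span ⟨l, rfl⟩
  have hw0 : ∀ l, w l ≠ 0 := by
    intro l h
    apply hz0
    rw [← hw l, h, map_zero, map_zero, smul_zero, add_zero]
  have hy : Function.Injective y := by
    have := hinj 0 1 (by simp)
    simpa using this
  by_cases hc : ∃ w0 ∈ W, y w0 = z
  · obtain ⟨w0, h0, h1⟩ := hc
    have hsub : ∀ v ∈ W, ∃ u ∈ W, x v = y u := by
      intro v hv
      rw [hW] at hv
      induction hv using Submodule.span_induction with
      | mem v h =>
        obtain ⟨l, rfl⟩ := h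
        refine ⟨w0 - l • w l, W.sub_mem h0 (W.smul_mem _ (hwW l)), ?_⟩
        rw [map_sub, map_smul, h1, ← hw l, add_sub_cancel_right]
      | zero => exact ⟨0, W.zero_mem, by rw [map_zero, map_zero]⟩
      | add a b _ _ ha hb =>
        obtain ⟨u, hu, e1⟩ := ha
        obtain ⟨u', hu', e2⟩ := hb
        exact ⟨u + u', W.add_mem hu hu', by rw [map_add, map_add, e1, e2]⟩
      | smul c a _ ha =>
        obtain ⟨u, hu, e1⟩ := ha
        exact ⟨c • u, W.smul_mem _ hu, by rw [map_smul, map_smul, e1]⟩
    obtain ⟨θ, hθ⟩ := exists_theta (x.domRestrict W) (y.domRestrict W)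
      (fun a b h => Subtype.ext (hy h)) (fun v => by
        obtain ⟨u, hu, e1⟩ := hsub v.1 v.2
        exact ⟨⟨u, hu⟩, e1⟩)
    have hnt : Nontrivial W := ⟨⟨w 0, hwW 0⟩, 0, fun h => hw0 0 (congrArg Subtype.val h)⟩
    obtain ⟨ρ, hρ⟩ := Module.End.exists_eigenvalue θ
    obtain ⟨v, hv⟩ := hρ.exists_hasEigenvector
    have e1 := hθ v
    rw [hv.apply_eq_smul] at e1
    have e2 : x v.1 = ρ • y v.1 := by
      rw [← map_smul]
      exact e1
    have hi := hinj 1 (-ρ) (by simp)
    have e3 : (1 • x + (-ρ) • y) v.1 = (1 • x + (-ρ) • y) 0 := by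
      rw [map_zero, LinearMap.add_apply, LinearMap.smul_apply, LinearMap.smul_apply, e2, one_smul,
        neg_smul, add_neg_cancel]
    have e4 : v.1 = 0 := by
      apply hi
      simpa using e3
    exact hv.2 (Subtype.ext e4)
  · have hg : Function.Injective (((Submodule.span K {z}).mkQ.comp y).domRestrict W) := by
      rw [injective_iff_map_eq_zero]
      intro v hv
      have h1 : y v.1 ∈ Submodule.span K {z} := by
        rw [← Submodule.Quotient.mk_eq_zero]
        exact hv
      obtain ⟨c, hcz⟩ := Submodule.mem_span_singleton.1 h1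
      by_cases hc0 : c = 0
      · rw [hc0, zero_smul] at hcz
        apply Subtype.ext
        exact hy (by rw [← hcz]; exact (map_zero y).symm)
      · exfalso
        apply hc
        refine ⟨c⁻¹ • v.1, W.smul_mem _ v.2, ?_⟩
        rw [map_smul, ← hcz, smul_smul, inv_mul_cancel₀ hc0, one_smul]
    have hsub : ∀ v ∈ W, ∃ u ∈ W, (Submodule.span K {z}).mkQ (x v) =
        (Submodule.span K {z}).mkQ (y u) := by
      intro v hv
      rw [hW] at hv
      induction hv using Submodule.span_induction with
      | mem v h =>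
        obtain ⟨l, rfl⟩ := h
        refine ⟨-(l • w l), W.neg_mem (W.smul_mem _ (hwW l)), ?_⟩
        rw [Submodule.mkQ_apply, Submodule.mkQ_apply, Submodule.Quotient.eq, map_neg, sub_neg_eq_add,
          map_smul, hw l]
        exact Submodule.mem_span_singleton_self z
      | zero => exact ⟨0, W.zero_mem, by rw [map_zero, map_zero, map_zero, map_zero]⟩
      | add a b _ _ ha hb =>
        obtain ⟨u, hu, e1⟩ := ha
        obtain ⟨u', hu', e2⟩ := hb
        exact ⟨u + u', W.add_mem hu hu', by rw [map_add, map_add, map_add, map_add, e1, e2]⟩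
      | smul c a _ ha =>
        obtain ⟨u, hu, e1⟩ := ha
        exact ⟨c • u, W.smul_mem _ hu, by rw [map_smul, map_smul, map_smul, map_smul, e1]⟩
    obtain ⟨θ, hθ⟩ := exists_theta (((Submodule.span K {z}).mkQ.comp x).domRestrict W)
      (((Submodule.span K {z}).mkQ.comp y).domRestrict W) hg (fun v => by
        obtain ⟨u, hu, e1⟩ := hsub v.1 v.2
        exact ⟨⟨u, hu⟩, e1⟩)
    have heig : ∀ l : K, Module.End.HasEigenvalue θ (-l) := by
      intro l
      apply Module.End.hasEigenvalue_of_hasEigenvector (x := (⟨w l, hwW l⟩ : W))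
      refine ⟨Module.End.mem_eigenspace_iff.2 ?_, fun h => hw0 l (congrArg Subtype.val h)⟩
      apply hg
      rw [← hθ]
      show (Submodule.span K {z}).mkQ (x (w l)) = (Submodule.span K {z}).mkQ (y ((-l) • w l))
      rw [Submodule.mkQ_apply, Submodule.mkQ_apply, Submodule.Quotient.eq, map_smul, neg_smul,
        sub_neg_eq_add, hw l]
      exact Submodule.mem_span_singleton_self z
    have hfin : Set.Finite {μ : K | Module.End.HasEigenvalue θ μ} :=
      Module.End.finite_hasEigenvalue θ
    have hall : {μ : K | Module.End.HasEigenvalue θ μ} = Set.univ := by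
      ext μ
      simp only [Set.mem_ofPred_eq, Set.mem_univ, iff_true]
      have := heig (-μ)
      rwa [neg_neg] at this
    rw [hall] at hfin
    have hKinf : Infinite K := IsAlgClosed.instInfinite
    exact Set.infinite_univ hfin

end Pool.Agent.ABCP.H43
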